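import Pool.Agent.HS37.C4.Fin
import Pool.Agent.HS37.C4.ARI3
import Pool.Agent.HS37.C4.Bas3
import Pool.Agent.HS37.C4.Bk3
import Pool.Agent.HS37.C4.Bk3f
import Pool.Agent.HS37.C4.Exp3
import Pool.Agent.HS37.C4.FN3
import Pool.Agent.HS37.C4.Fd3
import Pool.Agent.HS37.C4.Inj3
import Pool.Agent.HS37.C4.Inl3
import Pool.Agent.HS37.C4.Luc3
import Pool.Agent.HS37.C4.Num3
import Pool.Agent.HS37.C4.Par3
import Pool.Agent.HS37.C4.Pry
import Pool.Agent.HS37.C4.Rat3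
import Pool.Agent.HS37.C4.Rel3
import Pool.Agent.HS37.C4.SUR3
import Pool.Agent.HS37.C4.Self3
import Pool.Agent.HS37.C4.Sym3
import Pool.Agent.HS37.C4.Xin3
import Pool.Agent.HS37.C4.Yint3
import Pool.Agent.HS37.C3.Clo3
import Pool.Agent.HS37.C3.Conn3
import Pool.Agent.HS37.C3.EXT3
import Pool.Agent.HS37.C3.HK3
import Pool.Agent.HS37.C3.HYP3
import Pool.Agent.HS37.C3.INE3
import Pool.Agent.HS37.C3.Inr23
import Pool.Agent.HS37.C3.Lin3
import Pool.Agent.HS37.C3.Odd3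
import Pool.Agent.HS37.C3.PR23
import Pool.Agent.HS37.C3.PRE3
import Pool.Agent.HS37.C3.Ram3
import Pool.Agent.HS37.C3.TRC3
import Pool.Agent.HS37.C3.UDV3
import Pool.Agent.HS37.C3.VR3
import Pool.Agent.HS37.CV.LU1
import Pool.Agent.HS37.CV.LU2
import Pool.Agent.HS37.CV.INTP
import Pool.Agent.HS37.CQ.Psm
import Pool.Agent.HS37.CQ.Bas
import Pool.Agent.HS37.CQ.Cla
import Pool.Agent.HS37.SP.Eis
import Pool.Agent.HS37.SP.Qmul

/-!
# The supercongruences modulo `p²` attached to the `615 k + 53` series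

`v_k = C(2k, k)² C(3k, k)`, `S(p) = ∑_{k < p} v_k (-48)^(-3k)`. For every prime `p > 3`, modulo `p²`:
`S(p) ≡ x² - 2 p` if `(p/3) = (p/41) = 1` and `4 p = x² + 123 y²`, `S(p) ≡ 2 p - 3 x²` if `(p/3) = (p/41) = -1` and
`4 p = 3 x² + 41 y²`, and `S(p) ≡ 0` if `(p/123) = -1`. This is part (a) of Q1.

Proof. On `Γ₀(3)` let `e = (E₄(τ) - E₄(3τ)) / 240`, `P = (3 E₂(3τ) - E₂(τ)) / 2`, `F = (P³ - 540 e P - E₆) / 5832`,
`G = P³ - 54 e P + 729 F`, `D = e P - 27 F`, `h = G / D`, `y = P³ / D = (h + 27)² / h`. By Ramanujan's differential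
equations `P = ∑ v_n y^(-n)`. `y` is a bijection from `Γ₀(3)+ \ ℍ` to `ℂ`. The modular polynomials of `y` on the diagonal for
the indices `11`, `17`, `37` have the only common root `y((3 + √-123) / 6)`, which therefore is an integer, and
a numerical estimate of `e^(π √(41/3))` shows that it is `-48³`.

For the sublattices `Λ'` of index `p` of the lattice of `(3 + √-123) / 6` a combination `X(Λ')` of `P / β` and `1 / β`
(`β = η(τ)⁹ / η(3τ)³`, of weight `3` with a character), with the truncated sum as coefficient, has the property that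
`∑ X(Λ') x(Λ')^m`, `x(Λ') = p^12 Δ(Λ') / Δ(Λ)`, is `p²` times an algebraic integer for all `m`; running this recurrence
backwards for the sublattice `μ Λ`, `μ μ̄ = p`, gives the sum modulo `μ̄²`. For inert `p` the form
`∑_{n ≤ p/3} v_n D^n P^(p-1-3n)` is `≡ 1 mod p`, and the Hecke correspondence of index `31` (or `37`) on its cube gives `p ∣ S(p)`;
a truncated Clausen formula modulo `p²` shows that `S(p)` is modulo `p²` a square in `(ℤ/p²)[√41]`, so `p² ∣ S(p)`.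
(`p = 5` is checked by computation.)

Written with helpers 4, 6, 14, 15, 20, 23, 28, 35, 36, 39, 41, 48, 61, 63, 66, 68, 69, 70, 71, 72, 76, 77, 78, 82, 84, 90, 94 (files of
`Pool/Agent/HS37/C3` and `Pool/Agent/HS37/C4`), 11, 51 (files of `Pool/Agent/HS37/CV`), and the authors of `Pool/Agent/HS37/CQ`.
-/

set_option autoImplicit false

open Pool.Agent.HS37.C4 Pool.Agent.HS37.C3 Pool.Agent.HS37.CQ Pool.Agent.HS37.SP

namespace Pool.Agent.Results.MP_225c33_nt.CubicClassNumberTwo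

/-- `S(p) = ∑_{j < p} C(2j, j)² C(3j, j) (-48)^(-3j)` -/
def S (p : ℕ) : ℚ :=
  ∑ j ∈ Finset.range p, (((2 * j).choose j : ℚ) ^ 2 * ((3 * j).choose j : ℚ)) / (-48) ^ (3 * j)

/-- `u ≡ v mod p^r` for rational numbers: `v_p(u - v) ≥ r` -/
def Congr (p r : ℕ) (u v : ℚ) : Prop := u = v ∨ (r : ℤ) ≤ padicValRat p (u - v)

theorem all : S_BK3 ∧ S_BK3F ∧ S_INR23 ∧ S_INL3 ∧
    gP tauL ^ 3 = (cL : ℂ) * gD tauL := by
  have hE := t_EXP3 t_BAS3 t_BAS t_EIS t_QMUL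
  have hR := t_REL3 t_CON3 t_BAS3 hE t_CLO3 t_EIS t_QMUL
  have hP := t_PRE3 hR t_BAS3 hE t_CLO3 t_EIS t_QMUL
  have hPR := t_PR23 t_CON3 hP t_CLO3
  have hHK := t_HK3 t_VR3
  have hT := t_TRC3 hHK t_CLO3
  have hRam := t_RAM3 hR hE t_BAS3
  have hPar := t_PAR3 hRam hE
  have hH := t_HYP3 hPar t_UDV3 hE hP
  have hLUC := t_LUC3 hPar t_UDV3 hE hP
  have hO := t_ODD3 hR hP hE
  have hX := t_XIN3 hT hPR t_PSM t_CLO3 t_BAS3
  have hL := t_LIN3 hT hPR t_CLO3 t_BAS3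
  have hPRY := t_PRY hP hR t_BAS3 t_CLO3 hE
  -- the CM value
  have hLU : Pool.Agent.HS37.CV.S_LU := fun τ₁ τ₂ l hl h4 h6 =>
    Pool.Agent.HS37.CV.t_LU2 τ₁ τ₂ l hl (Pool.Agent.HS37.CV.t_LU1 τ₁ τ₂ l hl h4 h6)
  have hINJ := t_INJ3 hLU hR hP hPRY
  have hSUR := t_SUR3 t_CON3 hP hR hE t_CLO3 t_BAS3 t_QMUL
  have hSYM := t_SYM3 t_CON3 hPRY t_CLO3
  have hFN := t_FN3 hSYM hHK hPRY t_CLO3
  have hY := t_YINT3 hFN Pool.Agent.HS37.CV.t_INTP hSUR t_PSM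
  have hSELF := t_SELF3 t_VR3 hPRY
  have hFD := t_FD3 hPRY
  have hREL3N := t_REL3N hINJ
  have hRAT := t_RAT3 hFN hY hSUR hSELF hFD hREL3N t_ARI3 hPRY
  have hNUM := t_NUM3 hE t_EIS
  exact ⟨t_BK3 hL hX hO hH t_VR3 hR hRam hP t_CLO3 hE t_BAS3,
    t_BK3F hL hX hO hH t_VR3 hR hRam hP t_CLO3 hE t_BAS3, t_INR23 t_CLA t_UDV3,
    t_INL3 hLUC hHK t_VR3 hPR t_PSM hP hE t_CLO3 t_BAS3 hR, value hRAT hNUM hR⟩

lemma S_eq (p : ℕ) (hp : 0 < p) : S p * (cL : ℚ) ^ (p - 1) = (SL p cL : ℚ) := by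
  unfold S SL
  rw [Finset.sum_mul]
  push_cast
  refine Finset.sum_congr rfl fun k hk => ?_
  rw [Finset.mem_range] at hk
  have h1 : p - 1 = k + (p - 1 - k) := by omega
  have h48 : ((-48 : ℚ)) ^ 3 = (cL : ℚ) := by
    unfold cL
    norm_num
  have h2 : ((-48 : ℚ)) ^ (3 * k) = (cL : ℚ) ^ k := by
    rw [pow_mul, h48]
  have h3 : (cL : ℚ) ^ k ≠ 0 := pow_ne_zero _ (by unfold cL; norm_num)
  have h4 : (vv k : ℚ) = ((2 * k).choose k : ℚ) ^ 2 * ((3 * k).choose k : ℚ) := by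
    unfold vv
    push_cast
    ring
  rw [h2, ← h4]
  conv_lhs => rw [h1, pow_add]
  field_simp

/-- integer congruences to rational ones -/
lemma congr_of {p : ℕ} (hp : p.Prime) (hp3 : 3 < p) {v : ℤ}
    (h : (p : ℤ) ^ 2 ∣ SL p cL - cL ^ (p - 1) * v) : Congr p 2 (S p) v := by
  by_cases he : S p = (v : ℚ)
  · exact Or.inl he
  right
  have _ : Fact p.Prime := ⟨hp⟩
  obtain ⟨z, hz⟩ := h
  have hm0 : (cL : ℚ) ≠ 0 := by unfold cL; norm_num
  have hc0 : (cL : ℚ) ^ (p - 1) ≠ 0 := pow_ne_zero _ hm0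
  have h1 : (S p - v) * (cL : ℚ) ^ (p - 1) = (p : ℚ) ^ 2 * z := by
    rw [sub_mul, S_eq p hp.pos]
    have : ((SL p cL - cL ^ (p - 1) * v : ℤ) : ℚ) = (((p : ℤ) ^ 2 * z : ℤ) : ℚ) := by
      rw [hz]
    push_cast at this
    linear_combination this
  have h2 : S p - v ≠ 0 := sub_ne_zero.2 he
  have hz0 : (z : ℚ) ≠ 0 := by
    intro h3
    rw [h3, mul_zero] at h1
    rcases mul_eq_zero.1 h1 with h4 | h4
    · exact h2 h4
    · exact hc0 h4
  have hp0 : (p : ℚ) ≠ 0 := by exact_mod_cast hp.ne_zero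
  have h3 := congrArg (padicValRat p) h1
  rw [padicValRat.mul h2 hc0, padicValRat.mul (pow_ne_zero 2 hp0) hz0, padicValRat.pow,
    padicValRat.pow, padicValRat.self hp.one_lt] at h3
  have h4 : padicValRat p (cL : ℚ) = 0 := by
    rw [padicValRat.of_int, padicValInt.eq_zero_of_not_dvd (cL_unit hp hp3)]
    norm_num
  rw [h4] at h3
  have h5 : 0 ≤ padicValRat p (z : ℚ) := by
    rw [padicValRat.of_int]
    positivity
  push_cast at h3 ⊢
  linarith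

/-- `(p/123) = -1`: `-123` is not a square modulo `p` -/
lemma symb {p : ℕ} (hp : p.Prime) (hp3 : 3 < p) (h : jacobiSym p 123 = -1) :
    ¬ ∃ z : ℤ, (p : ℤ) ∣ -123 - z ^ 2 := by
  rintro ⟨z, hz⟩
  have _ : Fact p.Prime := ⟨hp⟩
  have hodd : Odd p := hp.odd_of_ne_two (by omega)
  have h1 : jacobiSym (-123) p = jacobiSym p 123 := by
    have e : (-123 : ℤ) = (-1) * ((123 : ℕ) : ℤ) := by norm_num
    have h123 : Odd 123 := ⟨61, by norm_num⟩
    rw [e, jacobiSym.mul_left, jacobiSym.at_neg_one hodd,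
      jacobiSym.quadratic_reciprocity h123 hodd, ZMod.χ₄_eq_neg_one_pow (Nat.odd_iff.1 hodd),
      ← mul_assoc, ← pow_add]
    have e2 : p / 2 + 123 / 2 * (p / 2) = 2 * (31 * (p / 2)) := by omega
    rw [e2, pow_mul]
    norm_num
  have h2 : legendreSym p (-123) = -1 := by
    rw [jacobiSym.legendreSym.to_jacobiSym, h1, h]
  rw [legendreSym.eq_neg_one_iff] at h2
  apply h2
  refine ⟨(z : ZMod p), ?_⟩
  have h6 : ((-123 - z ^ 2 : ℤ) : ZMod p) = 0 := (ZMod.intCast_zmod_eq_zero_iff_dvd _ p).2 hz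
  push_cast at h6 ⊢
  linear_combination h6

theorem result (p : ℕ) (hp : p.Prime) (hp3 : 3 < p) :
    (∀ x y : ℤ, jacobiSym p 3 = 1 → jacobiSym p 41 = 1 → 4 * (p : ℤ) = x ^ 2 + 123 * y ^ 2 →
      Congr p 2 (S p) (x ^ 2 - 2 * p)) ∧
    (∀ x y : ℤ, jacobiSym p 3 = -1 → jacobiSym p 41 = -1 → 4 * (p : ℤ) = 3 * x ^ 2 + 41 * y ^ 2 →
      Congr p 2 (S p) (2 * p - 3 * x ^ 2)) ∧
    (jacobiSym p 123 = -1 → Congr p 2 (S p) 0) := by
  obtain ⟨hB, hBF, h2, hL, hV⟩ := all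
  obtain ⟨m1, m2, m3⟩ := main hB hBF t_EXT3 t_UDV3 h2 hL t_INE3 hV hp hp3
  have h41 : jacobiSym p 41 ≠ 0 → p ≠ 41 := by
    intro h h1
    apply h
    rw [h1]
    norm_num
  refine ⟨fun x y ha hb hxy => ?_, fun x y ha hb hxy => ?_, fun hin => ?_⟩
  · have h5 := congr_of hp hp3 (m1 x y (h41 (by rw [hb]; norm_num)) hxy.symm)
    push_cast at h5
    exact h5
  · have h5 := congr_of hp hp3 (m2 x y (h41 (by rw [hb]; norm_num)) hxy.symm)
    push_cast at h5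
    exact h5
  · have h5 := congr_of hp hp3 (v := 0) (by
      rw [mul_zero, sub_zero]
      exact m3 (symb hp hp3 hin))
    push_cast at h5
    exact h5

end Pool.Agent.Results.MP_225c33_nt.CubicClassNumberTwo
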